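import Pool.Agent.Helper4.QH.Stm

/-!
# Integrality over the subalgebra generated by forms without common zero on a cone
-/

set_option autoImplicit false

namespace Pool.Agent.Helper64.QH

open MvPolynomial Pool.Agent.Helper4.QH

universe u v w

/-- homogeneous components of the multiples of a form -/
lemma hc_mul {K : Type u} [Field K] {N : ℕ} (c g : MvPolynomial (Fin N) K) {e : ℕ}
    (hg : g.IsHomogeneous e) (n : ℕ) :
    homogeneousComponent n (c * g) =
      if e ≤ n then homogeneousComponent (n - e) c * g else 0 := by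
  classical
  conv_lhs => rw [← sum_homogeneousComponent c, Finset.sum_mul, map_sum]
  have h1 : ∀ i, homogeneousComponent n (homogeneousComponent i c * g) =
      if i + e = n then homogeneousComponent i c * g else 0 := by
    intro i
    have h2 : (homogeneousComponent i c * g).IsHomogeneous (i + e) :=
      (homogeneousComponent_isHomogeneous i c).mul hg
    rw [homogeneousComponent_of_mem h2]
    simp only [eq_comm]
  rw [Finset.sum_congr rfl fun i _ => h1 i]
  by_cases he : e ≤ n
  · rw [if_pos he]
    have h3 : ∀ i, (i + e = n) ↔ i = n - e := fun i => by omega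
    simp only [h3]
    rw [Finset.sum_ite_eq']
    split_ifs with h4
    · rfl
    · rw [Finset.mem_range, Nat.lt_succ_iff, not_le] at h4
      rw [homogeneousComponent_eq_zero _ _ h4, zero_mul]
  · rw [if_neg he]
    refine Finset.sum_eq_zero fun i _ => ?_
    rw [if_neg]
    omega

/-- the monomials of large degree lie in an ideal whose radical contains the variables -/
lemma large {K : Type u} [Field K] {N : ℕ} (J : Ideal (MvPolynomial (Fin N) K))
    (h : ∀ i, X i ∈ J.radical) :
    ∃ D : ℕ, ∀ m : Fin N →₀ ℕ, D ≤ m.degree → monomial m (1 : K) ∈ J := by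
  classical
  choose n hn using h
  refine ⟨∑ i, n i + 1, fun m hm => ?_⟩
  obtain ⟨i, hi⟩ : ∃ i, n i ≤ m i := by
    by_contra hcon
    push Not at hcon
    have h1 : m.degree ≤ ∑ i, n i := by
      rw [Finsupp.degree_eq_sum]
      exact Finset.sum_le_sum fun i _ => (hcon i).le
    omega
  have h1 : monomial m (1 : K) = monomial (m - Finsupp.single i (n i)) 1 * X i ^ n i := by
    rw [X_pow_eq_monomial, monomial_mul, one_mul,
      tsub_add_cancel_of_le (Finsupp.single_le_iff.2 hi)]
  rw [h1]
  exact J.mul_mem_left _ (hn i)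

/-- GRD, part 1 -/
theorem sInt : SInt.{u, v} := by
  classical
  intro K _ A _ _ N r φ hφ g e he hg hrad
  obtain ⟨D, hD⟩ := large _ hrad
  let S := Algebra.adjoin K (Set.range fun j => φ (g j))
  let M : Submodule S A := Submodule.span S ((fun m : Fin N →₀ ℕ => φ (monomial m 1)) ''
    {m | m.degree < D})
  have hK : ∀ (c : K) (x : A), x ∈ M → algebraMap K A c * x ∈ M := by
    intro c x hx
    have h1 := M.smul_mem (algebraMap K S c) hx
    rwa [Algebra.smul_def] at h1
  have hgM : ∀ (j : Fin r) (x : A), x ∈ M → x * φ (g j) ∈ M := by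
    intro j x hx
    have h1 := M.smul_mem (⟨φ (g j), Algebra.subset_adjoin ⟨j, rfl⟩⟩ : S) hx
    rwa [Algebra.smul_def, mul_comm] at h1
  have hmon : ∀ (n : ℕ) (m : Fin N →₀ ℕ), m.degree = n → φ (monomial m 1) ∈ M := by
    intro n
    induction n using Nat.strong_induction_on with
    | _ n ih =>
    intro m hm
    by_cases hlt : m.degree < D
    · exact Submodule.subset_span ⟨m, hlt, rfl⟩
    have hmJ := hD m (not_lt.1 hlt)
    -- forms of smaller degree
    have hsm : ∀ (q : MvPolynomial (Fin N) K) (l : ℕ), l < n → φ (homogeneousComponent l q) ∈ M := by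
      intro q l hl
      rw [(homogeneousComponent l q).as_sum, map_sum]
      refine Submodule.sum_mem _ fun m' hm' => ?_
      have h1 := homogeneousComponent_isHomogeneous l q (mem_support_iff.1 hm')
      have h2 : m'.degree = l := by
        rw [← h1, Finsupp.degree_eq_weight_one]
        rfl
      have h3 : monomial m' (coeff m' (homogeneousComponent l q)) =
          C (coeff m' (homogeneousComponent l q)) * monomial m' 1 := by
        rw [C_mul_monomial, mul_one]
      rw [h3, map_mul]
      have h4 : φ (C (coeff m' (homogeneousComponent l q))) =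
          algebraMap K A (coeff m' (homogeneousComponent l q)) := φ.commutes _
      rw [h4]
      exact hK _ _ (ih l hl m' h2)
    rw [Submodule.mem_sup] at hmJ
    obtain ⟨a, ha, b, hb, hab⟩ := hmJ
    rw [Ideal.mem_span_range_iff_exists_fun] at hb
    obtain ⟨c, hc⟩ := hb
    have h5 := congrArg (homogeneousComponent n) hab
    have h6 : homogeneousComponent n (monomial m (1 : K)) = monomial m 1 := by
      exact homogeneousComponent_eq_self (isHomogeneous_monomial _ hm)
    rw [h6, map_add, ← hc, map_sum] at h5
    rw [← h5, map_add, hφ a ha n, zero_add, map_sum]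
    refine Submodule.sum_mem _ fun j _ => ?_
    rw [hc_mul _ _ (hg j)]
    split_ifs with h7
    · rw [map_mul]
      exact hgM j _ (hsm _ _ (by have := he j; omega))
    · rw [map_zero]
      exact M.zero_mem
  -- the range as a subalgebra
  have hrange : ∀ q : MvPolynomial (Fin N) K, φ q ∈ M := by
    intro q
    rw [q.as_sum, map_sum]
    refine Submodule.sum_mem _ fun m _ => ?_
    have h3 : monomial m (coeff m q) = C (coeff m q) * monomial m 1 := by
      rw [C_mul_monomial, mul_one]
    have h4 : φ (C (coeff m q)) = algebraMap K A (coeff m q) := φ.commutes _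
    rw [h3, map_mul, h4]
    exact hK _ _ (hmon _ m rfl)
  have hSr : ∀ s : S, ∃ q, φ q = s := by
    rintro ⟨s, hs⟩
    have h1 : S ≤ φ.range := by
      refine Algebra.adjoin_le ?_
      rintro _ ⟨j, rfl⟩
      exact ⟨g j, rfl⟩
    exact h1 hs
  let B : Subalgebra S A :=
    { carrier := Set.range φ
      mul_mem' := by
        rintro _ _ ⟨a, rfl⟩ ⟨b, rfl⟩
        exact ⟨a * b, map_mul _ _ _⟩
      add_mem' := by
        rintro _ _ ⟨a, rfl⟩ ⟨b, rfl⟩
        exact ⟨a + b, map_add _ _ _⟩
      algebraMap_mem' := fun s => hSr s }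
  have hBM : Subalgebra.toSubmodule B = M := by
    apply le_antisymm
    · rintro _ ⟨q, rfl⟩
      exact hrange q
    · refine Submodule.span_le.2 ?_
      rintro _ ⟨m, -, rfl⟩
      exact ⟨_, rfl⟩
  intro i
  refine IsIntegral.of_mem_of_fg B ?_ _ ⟨X i, rfl⟩
  rw [hBM]
  refine Submodule.fg_span (Set.Finite.image _ ?_)
  have hfin : ({m : Fin N →₀ ℕ | ∀ i, m i ∈ Set.Iio D}).Finite := by
    have h1 := Set.Finite.pi (t := fun _ : Fin N => Set.Iio D) (fun _ => Set.finite_Iio D)
    refine Set.Finite.of_finite_image (f := fun m : Fin N →₀ ℕ => (m : Fin N → ℕ)) (h1.subset ?_)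
      (DFunLike.coe_injective.injOn)
    rintro _ ⟨m, hm, rfl⟩ i _
    exact hm i
  refine hfin.subset fun m hm i => ?_
  have h1 : m i ≤ m.degree := by
    rw [Finsupp.degree_eq_sum]
    exact Finset.single_le_sum (fun _ _ => Nat.zero_le _) (Finset.mem_univ i)
  exact lt_of_le_of_lt h1 hm

/-- GRD, part 2 -/
theorem sPt : SPt.{u, v} := by
  classical
  intro K _ A _ _ _ N r φ hφ g e he hg ⟨t, ht⟩
  by_contra hcon
  push Not at hcon
  let ψ : MvPolynomial (Fin N) K →ₐ[K] φ.range := φ.rangeRestrict
  have hψ : ∀ f, ((ψ f : φ.range) : A) = φ f := fun _ => rfl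
  have hψ0 : ∀ f, ψ f = 0 ↔ φ f = 0 := fun f => by
    rw [← hψ]
    exact (ZeroMemClass.coe_eq_zero).symm
  have hker : RingHom.ker ψ = RingHom.ker φ := by
    ext f
    exact hψ0 f
  have hψh : HomKer ψ := fun f hf d => (hψ0 _).2 (hφ f ((hψ0 f).1 hf) d)
  have hrad : ∀ i, X i ∈ (RingHom.ker ψ ⊔ Ideal.span (Set.range g)).radical := by
    intro i
    rw [hker, Ideal.radical_eq_sInf, Ideal.mem_sInf]
    rintro Q ⟨hQ, hQp⟩
    exact hcon Q hQp (le_sup_left.trans hQ) (fun j => hQ (le_sup_right (a := RingHom.ker φ)
      (Ideal.subset_span ⟨j, rfl⟩))) i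
  have hint := sInt K φ.range N r ψ hψh g e he hg hrad
  let S := Algebra.adjoin K (Set.range fun j => ψ (g j))
  have hall : ∀ f, IsIntegral S (ψ f) := by
    intro f
    induction f using MvPolynomial.induction_on with
    | C a =>
      have h1 : ψ (C a) = algebraMap S φ.range (algebraMap K S a) := ψ.commutes a
      rw [h1]
      exact isIntegral_algebraMap
    | add p q hp hq =>
      rw [map_add]
      exact hp.add hq
    | mul_X p i hp =>
      rw [map_mul]
      exact hp.mul (hint i)
  have hI : Algebra.IsIntegral S φ.range := ⟨fun x => by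
    obtain ⟨f, hf⟩ := φ.rangeRestrict_surjective x
    rw [← hf]
    exact hall f⟩
  have halg : Algebra.IsAlgebraic S φ.range := ⟨fun x => (hI.isIntegral x).isAlgebraic⟩
  have h1 : Algebra.trdeg K φ.range ≤ Cardinal.mk (Set.range fun j => ψ (g j)) :=
    Algebra.IsAlgebraic.trdeg_le_cardinalMk K (Set.range fun j => ψ (g j))
  have h2 : Cardinal.mk (Set.range fun j => ψ (g j)) ≤ r := by
    have h3 := Cardinal.mk_range_le_lift (f := fun j => ψ (g j))
    simpa using h3
  have h4 : AlgebraicIndependent K fun j => ψ (t j) := by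
    rw [algebraicIndependent_iff] at ht ⊢
    intro p hp
    apply ht p
    have h5 := congrArg (φ.range.val) hp
    rw [map_zero, ← AlgHom.comp_apply, comp_aeval] at h5
    exact h5
  have h5 := h4.lift_cardinalMk_le_trdeg
  simp only [Cardinal.mk_fin, Cardinal.lift_natCast] at h5
  have h6 : ((r + 1 : ℕ) : Cardinal.{v}) ≤ r := by
    refine le_trans ?_ (h1.trans h2)
    simpa using h5
  have h7 : r + 1 ≤ r := by exact_mod_cast h6
  omega

end Pool.Agent.Helper64.QH
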